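import Pool.Agent.GZ.All

/-!
# The Guth-Zahl conjecture on two-rich points of bounded-degree curves in `k ^ n`

For all `n >= 2` and `d` there are `C`, `D` such that for every field `k` and every finite set `Γ`
of `L` irreducible algebraic curves of degree at most `d` in `k ^ n` (with `L <= p ^ (n - 1)` if `k` has
characteristic `p > 0`), either `|P_2(Γ)| <= C * L ^ (n / (n - 1))`, or for some `2 <= m <= n - 1` there
is an irreducible variety `Z` of dimension `m` and degree at most `D`, defined over `k`, which contains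
at least `L ^ ((m - 1) / (n - 1))` of the curves.
-/

namespace Pool.Agent.Results.MP_f3a397_co.GuthZahl

open MvPolynomial Filter

universe u

/-- The (affine) Hilbert function of the ideal `I` of `k[x_1, ..., x_n]`: the dimension over `k` of the
space of polynomials of total degree at most `t`, taken modulo `I`. -/
noncomputable def hilb {k : Type u} [Field k] {n : ℕ} (I : Ideal (MvPolynomial (Fin n) k))
    (t : ℕ) : ℕ :=
  Module.finrank k ((restrictTotalDegree (Fin n) k t).map (Ideal.Quotient.mkₐ k I).toLinearMap)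

/-- `I` has dimension `m` and degree at most `D`: for large `t` the Hilbert function of `I` is at least
a positive multiple of `t ^ m`, and `m! * hilb I t / t ^ m` has limit superior at most `D`. (The Hilbert
function agrees for large `t` with a polynomial of degree `m` with leading coefficient `deg / m!`.) -/
def HasDimDeg {k : Type u} [Field k] {n : ℕ} (I : Ideal (MvPolynomial (Fin n) k))
    (m D : ℕ) : Prop :=
  (∃ c : ℝ, 0 < c ∧ ∀ᶠ t : ℕ in atTop, c * (t : ℝ) ^ m ≤ (hilb I t : ℝ)) ∧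
  (∀ ε : ℝ, 0 < ε → ∀ᶠ t : ℕ in atTop,
    (m.factorial : ℝ) * (hilb I t : ℝ) ≤ ((D : ℝ) + ε) * (t : ℝ) ^ m)

/-- The vanishing ideal, over the algebraic closure, of the zero set of `I` over the algebraic closure:
the radical of the extension of `I`. -/
noncomputable def geomIdeal {k : Type u} [Field k] {n : ℕ} (I : Ideal (MvPolynomial (Fin n) k)) :
    Ideal (MvPolynomial (Fin n) (AlgebraicClosure k)) :=
  (I.map (MvPolynomial.map (algebraMap k (AlgebraicClosure k)))).radical

/-- An irreducible algebraic curve of degree at most `d` in `k ^ n`, given by its prime ideal `q`;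
dimension and degree are computed over the algebraic closure. -/
def IsCurve {k : Type u} [Field k] {n : ℕ} (q : Ideal (MvPolynomial (Fin n) k)) (d : ℕ) : Prop :=
  q.IsPrime ∧ HasDimDeg (geomIdeal q) 1 d

/-- The points of `k ^ n` on the zero set of `I`. -/
def pts {k : Type u} [Field k] {n : ℕ} (I : Ideal (MvPolynomial (Fin n) k)) : Set (Fin n → k) :=
  {x | ∀ P ∈ I, eval x P = 0}

/-- `P_2(Γ)`: the points of `k ^ n` lying on at least two of the curves. -/
def twoRich {k : Type u} [Field k] {n : ℕ} (Γ : Finset (Ideal (MvPolynomial (Fin n) k))) :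
    Set (Fin n → k) :=
  {x | ∃ q ∈ Γ, ∃ q' ∈ Γ, q ≠ q' ∧ x ∈ pts q ∧ x ∈ pts q'}

/-- The theorem on two-rich points. -/
theorem result : ∀ n d : ℕ, 2 ≤ n → ∃ C D : ℕ, ∀ (k : Type u) [Field k]
    (Γ : Finset (Ideal (MvPolynomial (Fin n) k))), (∀ q ∈ Γ, IsCurve q d) →
    (ringChar k ≠ 0 → Γ.card ≤ ringChar k ^ (n - 1)) →
    (twoRich Γ).Finite ∧
    (((twoRich Γ).ncard : ℝ) ≤ (C : ℝ) * (Γ.card : ℝ) ^ ((n : ℝ) / ((n : ℝ) - 1)) ∨
      ∃ m, 2 ≤ m ∧ m ≤ n - 1 ∧ ∃ Z : Ideal (MvPolynomial (Fin n) k), Z.IsPrime ∧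
        HasDimDeg (geomIdeal Z) m D ∧
        (Γ.card : ℝ) ^ (((m : ℝ) - 1) / ((n : ℝ) - 1)) ≤ ({q | q ∈ Γ ∧ Z ≤ q}.ncard : ℝ)) := by
  intro n d hn
  obtain ⟨C, D, h⟩ := GZ.all.{u} n d hn
  refine ⟨C, D, ?_⟩
  intro k _ Γ hΓ hp
  obtain ⟨hfin, hor⟩ := h k Γ hΓ hp
  refine ⟨hfin, ?_⟩
  rcases hor with h1 | ⟨m, hm, hm', Z, hZ, hZd, Γ', hsub, hZq, hle⟩
  · exact Or.inl h1
  · refine Or.inr ⟨m, hm, hm', Z, hZ, hZd, hle.trans ?_⟩
    have h2 : (Γ' : Set (Ideal (MvPolynomial (Fin n) k))) ⊆ {q | q ∈ Γ ∧ Z ≤ q} :=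
      fun q hq => ⟨hsub hq, hZq q hq⟩
    have h3 : {q | q ∈ Γ ∧ Z ≤ q}.Finite :=
      (Γ.finite_toSet).subset (fun q hq => hq.1)
    have h4 := Set.ncard_le_ncard h2 h3
    rw [Set.ncard_coe_finset] at h4
    exact_mod_cast h4

end Pool.Agent.Results.MP_f3a397_co.GuthZahl
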